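import Pool.Agent.L0h45.NF.Stm

/-!
# Equivalent forms have `z` in the same class modulo squares

The main result is `eqv : S_EQV`.
-/

set_option autoImplicit false

open Polynomial

namespace Pool.Agent.L0h90.NF

open Pool.Agent.L0h45.NF
open Pool.Agent.L0h45.AR (Q4 Q4.sub Q4.I Q4.J)

/-- the covariant, up to the determinant -/
theorem cov {R : Type} [CommRing R] (a b c d e p q r s : R) :
    3 * ((Q4.sub ⟨a, b, c, d, e⟩ p q r s).b) ^ 2 -
      8 * (Q4.sub ⟨a, b, c, d, e⟩ p q r s).a * (Q4.sub ⟨a, b, c, d, e⟩ p q r s).c =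
    (p * s - q * r) ^ 2 * ((3 * b ^ 2 - 8 * a * c) * p ^ 4 + 4 * (b * c - 6 * a * d) * p ^ 3 * r +
      2 * (2 * c ^ 2 - 24 * a * e - 3 * b * d) * p ^ 2 * r ^ 2 + 4 * (c * d - 6 * b * e) * p * r ^ 3 +
      (3 * d ^ 2 - 8 * c * e) * r ^ 4) := by
  simp only [Q4.sub]
  ring

/-- the basic identity -/
theorem key {R : Type} [CommRing R] (a b c d e p r f : R)
    (hf : f ^ 3 - 3 * (12 * a * e - 3 * b * d + c ^ 2) * f +
      (72 * a * c * e + 9 * b * c * d - 27 * a * d ^ 2 - 27 * e * b ^ 2 - 2 * c ^ 3) = 0) :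
    9 * (4 * a * f + 3 * b ^ 2 - 8 * a * c) *
      (4 * f * (a * p ^ 4 + b * p ^ 3 * r + c * p ^ 2 * r ^ 2 + d * p * r ^ 3 + e * r ^ 4) +
      ((3 * b ^ 2 - 8 * a * c) * p ^ 4 + 4 * (b * c - 6 * a * d) * p ^ 3 * r +
      2 * (2 * c ^ 2 - 24 * a * e - 3 * b * d) * p ^ 2 * r ^ 2 + 4 * (c * d - 6 * b * e) * p * r ^ 3 +
      (3 * d ^ 2 - 8 * c * e) * r ^ 4)) =
    (3 * (4 * a * f + 3 * b ^ 2 - 8 * a * c) * p ^ 2 + 6 * (f * b + b * c - 6 * a * d) * p * r +
      (-2 * f ^ 2 + 2 * c * f + 4 * c ^ 2 - 9 * b * d) * r ^ 2) ^ 2 := by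
  linear_combination (-(4 * r ^ 4 * f - 4 * r ^ 2 * (12 * a * p ^ 2 + 6 * b * p * r + 2 * c * r ^ 2))) * hf

/-- the map from the field -/
noncomputable abbrev io {F : Type} [Field F] (A B : F) : F →+* Alg A B := AdjoinRoot.of (cub A B)

/-- **EQV** -/
theorem eqv : S_EQV := by
  intro F _ _ A B M G p q r s hI hJ
  obtain ⟨a, b, c, d, e⟩ := G
  have hroot : (th A B) ^ 3 + io A B A * th A B + io A B B = 0 := by
    have h : eval₂ (AdjoinRoot.of (cub A B)) (th A B) (X ^ 3 + C A * X + C B) = 0 :=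
      AdjoinRoot.eval₂_root (cub A B)
    simp only [eval₂_add, eval₂_mul, eval₂_pow, eval₂_X, eval₂_C] at h
    exact h
  have hI' : 12 * io A B a * io A B e - 3 * io A B b * io A B d + (io A B c) ^ 2 =
      -48 * io A B M ^ 2 * io A B A := by
    have := congrArg (io A B) hI
    simpa only [Q4.I, map_add, map_sub, map_mul, map_pow, map_neg, map_ofNat] using this
  have hJ' : 72 * io A B a * io A B c * io A B e + 9 * io A B b * io A B c * io A B d -
      27 * io A B a * (io A B d) ^ 2 - 27 * io A B e * (io A B b) ^ 2 -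
      2 * (io A B c) ^ 3 = -1728 * io A B M ^ 3 * io A B B := by
    have := congrArg (io A B) hJ
    simpa only [Q4.J, map_add, map_sub, map_mul, map_pow, map_neg, map_ofNat] using this
  set t : Alg A B := io A B M * th A B with ht
  have hf : (-12 * t) ^ 3 - 3 * (12 * io A B a * io A B e - 3 * io A B b * io A B d +
      (io A B c) ^ 2) * (-12 * t) +
      (72 * io A B a * io A B c * io A B e + 9 * io A B b * io A B c * io A B d -
      27 * io A B a * (io A B d) ^ 2 - 27 * io A B e * (io A B b) ^ 2 -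
      2 * (io A B c) ^ 3) = 0 := by
    rw [hI', hJ', ht]
    linear_combination (-1728 * io A B M ^ 3) * hroot
  have hk := key (R := Alg A B) (io A B a) (io A B b) (io A B c) (io A B d) (io A B e)
    (io A B p) (io A B r) (-12 * t) hf
  have hc := cov (R := Alg A B) (io A B a) (io A B b) (io A B c) (io A B d) (io A B e)
    (io A B p) (io A B q) (io A B r) (io A B s)
  obtain ⟨u, hu⟩ : ∃ u : Alg A B, 9 * u = 1 := ⟨io A B (1 / 9), by
    have : (9 : Alg A B) = io A B 9 := (map_ofNat (io A B) 9).symm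
    rw [this, ← map_mul]
    have h9 : (9 : F) * (1 / 9) = 1 := by
      have : (9 : F) ≠ 0 := by norm_num
      field_simp
    rw [h9, map_one]⟩
  -- the two numbers
  have hz : ∀ (N : F) (H : Q4 F), zz A B N H = 3 * u * (4 * io A B H.a * (-12 * (io A B N * th A B)) +
      3 * (io A B H.b) ^ 2 - 8 * io A B H.a * io A B H.c) := by
    intro N H
    have h1 : 3 * io A B (8 / 3 * (H.a * H.c)) = 8 * io A B H.a * io A B H.c := by
      have h3 : (3 : Alg A B) = io A B 3 := (map_ofNat (io A B) 3).symm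
      rw [h3, ← map_mul]
      have : (3 : F) * (8 / 3 * (H.a * H.c)) = 8 * H.a * H.c := by
        have h30 : (3 : F) ≠ 0 := by norm_num
        field_simp
      rw [this, map_mul, map_mul, map_ofNat]
    have h2 : zz A B N H = (io A B H.b) ^ 2 - io A B (8 / 3 * (H.a * H.c)) -
        16 * io A B N * io A B H.a * th A B := by
      unfold zz
      rw [map_sub, map_pow, map_mul (AdjoinRoot.of (cub A B)) (16 * N), map_mul (AdjoinRoot.of (cub A B)) 16,
        map_ofNat]
    rw [h2]
    linear_combination (-(io A B H.b) ^ 2 + io A B (8 / 3 * (H.a * H.c)) +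
      16 * io A B N * io A B H.a * th A B) * hu - 3 * u * h1
  refine ⟨(io A B p * io A B s - io A B q * io A B r) * u *
      (3 * (4 * io A B a * (-12 * t) + 3 * (io A B b) ^ 2 - 8 * io A B a * io A B c) *
      (io A B p) ^ 2 + 6 * (-12 * t * io A B b + io A B b * io A B c - 6 * io A B a * io A B d) *
      io A B p * io A B r + (-2 * (-12 * t) ^ 2 + 2 * io A B c * (-12 * t) + 4 * (io A B c) ^ 2 -
      9 * io A B b * io A B d) * (io A B r) ^ 2), ?_⟩
  rw [hz, hz]
  have hG1 : io A B (Q4.sub ⟨a, b, c, d, e⟩ p q r s : Q4 F).a =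
      (Q4.sub (R := Alg A B) ⟨io A B a, io A B b, io A B c, io A B d, io A B e⟩ (io A B p)
        (io A B q) (io A B r) (io A B s)).a := by
    simp only [Q4.sub, map_add, map_sub, map_mul, map_pow, map_ofNat]
  have hG2 : io A B (Q4.sub ⟨a, b, c, d, e⟩ p q r s : Q4 F).b =
      (Q4.sub (R := Alg A B) ⟨io A B a, io A B b, io A B c, io A B d, io A B e⟩ (io A B p)
        (io A B q) (io A B r) (io A B s)).b := by
    simp only [Q4.sub, map_add, map_sub, map_mul, map_pow, map_ofNat]
  have hG3 : io A B (Q4.sub ⟨a, b, c, d, e⟩ p q r s : Q4 F).c =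
      (Q4.sub (R := Alg A B) ⟨io A B a, io A B b, io A B c, io A B d, io A B e⟩ (io A B p)
        (io A B q) (io A B r) (io A B s)).c := by
    simp only [Q4.sub, map_add, map_sub, map_mul, map_pow, map_ofNat]
  rw [hG1, hG2, hG3]
  have hGa : (Q4.sub (R := Alg A B) ⟨io A B a, io A B b, io A B c, io A B d, io A B e⟩ (io A B p)
        (io A B q) (io A B r) (io A B s)).a =
      io A B a * (io A B p) ^ 4 + io A B b * (io A B p) ^ 3 * io A B r +
      io A B c * (io A B p) ^ 2 * (io A B r) ^ 2 + io A B d * io A B p * (io A B r) ^ 3 +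
      io A B e * (io A B r) ^ 4 := by
    simp only [Q4.sub]
  rw [← hGa] at hk
  have hM : io A B (M * (p * s - q * r) ^ 2) = io A B M *
      (io A B p * io A B s - io A B q * io A B r) ^ 2 := by
    simp only [map_sub, map_mul, map_pow]
  rw [hM]
  set H := Q4.sub (R := Alg A B) ⟨io A B a, io A B b, io A B c, io A B d, io A B e⟩ (io A B p)
        (io A B q) (io A B r) (io A B s) with hH
  set D := io A B p * io A B s - io A B q * io A B r with hD
  have e1 : 4 * H.a * (-12 * (io A B M * D ^ 2 * th A B)) + 3 * H.b ^ 2 - 8 * H.a * H.c =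
      D ^ 2 * (4 * (-12 * t) * H.a + ((3 * io A B b ^ 2 - 8 * io A B a * io A B c) * io A B p ^ 4 + 4 * (io A B b * io A B c - 6 * io A B a * io A B d) * io A B p ^ 3 * io A B r +
      2 * (2 * io A B c ^ 2 - 24 * io A B a * io A B e - 3 * io A B b * io A B d) * io A B p ^ 2 * io A B r ^ 2 + 4 * (io A B c * io A B d - 6 * io A B b * io A B e) * io A B p * io A B r ^ 3 +
      (3 * io A B d ^ 2 - 8 * io A B c * io A B e) * io A B r ^ 4)) := by
    linear_combination hc
  rw [e1]
  linear_combination (D ^ 2 * u ^ 2) * hk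

end Pool.Agent.L0h90.NF
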