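import Pool.Agent.L0h45.NF.Stm

/-!
# If `x(P) - θ` is a square, then `P` is a double, over any field of characteristic 0

The main result is `half : S_HALF`.
-/

set_option autoImplicit false
set_option linter.unusedSectionVars false

namespace Pool.Agent.L0h90.NF

open Polynomial Pool.Agent.L0h45.NF WeierstrassCurve

variable {F : Type} [Field F] [CharZero F] {A B : F}

lemma two_zero {t : F} (h : t = -t) : t = 0 := by
  have h1 : 2 * t = 0 := by linear_combination h
  rcases mul_eq_zero.1 h1 with h2 | h2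
  · exact absurd h2 two_ne_zero
  · exact h2

lemma cub_monic (A B : F) : (cub A B).Monic := by
  unfold cub
  monicity!

lemma cub_natDegree (A B : F) : (cub A B).natDegree = 3 := by
  unfold cub
  compute_degree!

/-- the relation -/
lemma th_rel (A B : F) : th A B ^ 3 + AdjoinRoot.of (cub A B) A * th A B +
    AdjoinRoot.of (cub A B) B = 0 := by
  have h : AdjoinRoot.mk (cub A B) (cub A B) = 0 := AdjoinRoot.mk_self
  conv at h =>
    lhs
    arg 2
    unfold cub
  rw [map_add, map_add, map_mul, map_pow, AdjoinRoot.mk_X, AdjoinRoot.mk_C, AdjoinRoot.mk_C] at h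
  exact h

/-- linear independence -/
lemma lin_ind {a b c : F} (h : AdjoinRoot.of (cub A B) a + AdjoinRoot.of (cub A B) b * th A B +
    AdjoinRoot.of (cub A B) c * th A B ^ 2 = 0) : a = 0 ∧ b = 0 ∧ c = 0 := by
  have h1 : AdjoinRoot.mk (cub A B) (C a + C b * X + C c * X ^ 2) = 0 := by
    rw [map_add, map_add, map_mul, map_mul, map_pow, AdjoinRoot.mk_X, AdjoinRoot.mk_C,
      AdjoinRoot.mk_C, AdjoinRoot.mk_C]
    exact h
  rw [AdjoinRoot.mk_eq_zero] at h1
  have h2 : (C a + C b * X + C c * X ^ 2 : F[X]) = 0 := by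
    apply Polynomial.eq_zero_of_dvd_of_natDegree_lt h1
    rw [cub_natDegree]
    have : (C a + C b * X + C c * X ^ 2 : F[X]).natDegree ≤ 2 := by compute_degree
    omega
  have e0 := congrArg (fun q : F[X] => q.coeff 0) h2
  have e1 := congrArg (fun q : F[X] => q.coeff 1) h2
  have e2 := congrArg (fun q : F[X] => q.coeff 2) h2
  simp [coeff_X, coeff_C] at e0 e1 e2
  exact ⟨e0, e1, e2⟩

/-- the elements -/
lemma exists_rep (w : Alg A B) : ∃ a b c : F, w = AdjoinRoot.of (cub A B) a +
    AdjoinRoot.of (cub A B) b * th A B + AdjoinRoot.of (cub A B) c * th A B ^ 2 := by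
  obtain ⟨p, rfl⟩ := AdjoinRoot.mk_surjective w
  have hm := cub_monic A B
  set r := p %ₘ cub A B with hr
  have h1 : AdjoinRoot.mk (cub A B) p = AdjoinRoot.mk (cub A B) r := by
    rw [AdjoinRoot.mk_eq_mk]
    refine ⟨p /ₘ cub A B, ?_⟩
    have := modByMonic_add_div p (cub A B)
    rw [hr]
    linear_combination -this
  have hd : r.natDegree < 3 := by
    rw [← cub_natDegree A B, hr]
    apply natDegree_modByMonic_lt p hm
    intro h
    have := cub_natDegree A B
    rw [h, natDegree_one] at this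
    omega
  refine ⟨r.coeff 0, r.coeff 1, r.coeff 2, ?_⟩
  have h2 : r = C (r.coeff 0) + C (r.coeff 1) * X + C (r.coeff 2) * X ^ 2 := by
    conv_lhs => rw [r.as_sum_range' 3 hd]
    rw [Finset.sum_range_succ, Finset.sum_range_succ, Finset.sum_range_one]
    simp [← C_mul_X_pow_eq_monomial]
  rw [h1]
  conv_lhs => rw [h2]
  rw [map_add, map_add, map_mul, map_mul, map_pow, AdjoinRoot.mk_X, AdjoinRoot.mk_C,
      AdjoinRoot.mk_C, AdjoinRoot.mk_C]

/-- the three equations -/
lemma sq_eqs {x u v w : F} (h : AdjoinRoot.of (cub A B) x - th A B =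
    (AdjoinRoot.of (cub A B) u + AdjoinRoot.of (cub A B) v * th A B +
      AdjoinRoot.of (cub A B) w * th A B ^ 2) ^ 2) :
    u ^ 2 - 2 * v * w * B = x ∧ 2 * u * v - 2 * v * w * A - w ^ 2 * B = -1 ∧
      v ^ 2 + 2 * u * w - w ^ 2 * A = 0 := by
  have hrel := th_rel A B
  have h1 : AdjoinRoot.of (cub A B) (u ^ 2 - 2 * v * w * B - x) +
      AdjoinRoot.of (cub A B) (2 * u * v - 2 * v * w * A - w ^ 2 * B + 1) * th A B +
      AdjoinRoot.of (cub A B) (v ^ 2 + 2 * u * w - w ^ 2 * A) * th A B ^ 2 = 0 := by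
    simp only [map_add, map_sub, map_mul, map_pow, map_one, map_ofNat]
    linear_combination -h - (2 * AdjoinRoot.of (cub A B) v * AdjoinRoot.of (cub A B) w +
      AdjoinRoot.of (cub A B) w ^ 2 * th A B) * hrel
  obtain ⟨e0, e1, e2⟩ := lin_ind h1
  exact ⟨by linear_combination e0, by linear_combination e1, e2⟩

/-- the polynomial identity -/
lemma half_ids {x u v w a b : F} (h1 : u ^ 2 - 2 * v * w * b = x)
    (h2 : 2 * u * v - 2 * v * w * a - w ^ 2 * b = -1) (h3 : v ^ 2 + 2 * u * w - w ^ 2 * a = 0) :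
    ∃ x0 m n : F, m ^ 2 = x + 2 * x0 ∧ 2 * m * n + x0 ^ 2 + 2 * x * x0 = a ∧
      n ^ 2 - x * x0 ^ 2 = b := by
  have hw : w ≠ 0 := by
    rintro rfl
    have hv : v = 0 := by
      have : v ^ 2 = 0 := by linear_combination h3
      exact pow_eq_zero_iff (two_ne_zero) |>.1 this
    subst hv
    norm_num at h2
  obtain ⟨x0, hx0⟩ : ∃ x0, v = x0 * w := ⟨v / w, by field_simp⟩
  subst hx0
  have r3 : x0 ^ 2 * w + 2 * u - w * a = 0 := by
    apply mul_left_cancel₀ hw
    linear_combination h3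
  have rK : w ^ 2 * b + 2 * x0 * u * w + 2 * x0 ^ 3 * w ^ 2 = 1 := by
    linear_combination -h2 + 2 * x0 * w * r3
  refine ⟨x0, -u - 2 * x0 ^ 2 * w, -(w * b + x0 * u), ?_, ?_, ?_⟩
  · linear_combination h1 + 2 * x0 * rK
  · apply mul_left_cancel₀ hw
    linear_combination -2 * x0 * w * h1 + 2 * u * rK + r3
  · linear_combination x0 ^ 2 * h1 + b * rK

lemma crv_nons (A B : F) (x y : F) : (crv A B).toAffine.Nonsingular x y ↔
    y ^ 2 = x ^ 3 + A * x + B ∧ (0 ≠ 3 * x ^ 2 + A ∨ y ≠ -y) := by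
  rw [Affine.nonsingular_iff, Affine.equation_iff]
  unfold crv
  simp

/-- **HALF** -/
theorem half : S_HALF := by
  intro F _ _ _ A B hΔ x y h hsq
  have hy : y ^ 2 = x ^ 3 + A * x + B := ((crv_nons A B x y).1 h).1
  have hΔ' : 4 * A ^ 3 + 27 * B ^ 2 ≠ 0 := hΔ
  obtain ⟨w', hw'⟩ := hsq
  obtain ⟨u, v, w, rfl⟩ := exists_rep w'
  rw [← sq] at hw'
  obtain ⟨e1, e2, e3⟩ := sq_eqs hw'
  obtain ⟨x0, m, n, i2, i1, i0⟩ := half_ids e1 e2 e3
  have q0 : (m * x0 + n) ^ 2 = x0 ^ 3 + A * x0 + B := by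
    linear_combination x0 ^ 2 * i2 + x0 * i1 + i0
  have q1 : 3 * x0 ^ 2 + A = 2 * m * (m * x0 + n) := by
    linear_combination -i1 - 2 * x0 * i2
  have q2 : (m * x + n) ^ 2 = x ^ 3 + A * x + B := by
    linear_combination x ^ 2 * i2 + x * i1 + i0
  have hy0 : m * x0 + n ≠ 0 := by
    intro h0
    rw [h0] at q0 q1
    apply hΔ'
    have ha : A = -3 * x0 ^ 2 := by linear_combination q1
    have hbb : (B : F) = 2 * x0 ^ 3 := by rw [ha] at q0; linear_combination -q0
    rw [ha, hbb]
    ring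
  have hns : (crv A B).toAffine.Nonsingular x0 (m * x0 + n) := by
    rw [crv_nons]
    refine ⟨q0, Or.inr fun h0 => hy0 (two_zero h0)⟩
  have hneg : m * x0 + n ≠ (crv A B).toAffine.negY x0 (m * x0 + n) := by
    unfold Affine.negY crv
    simp only [zero_mul, sub_zero]
    intro h0
    exact hy0 (two_zero h0)
  have hsl : (crv A B).toAffine.slope x0 x0 (m * x0 + n) (m * x0 + n) = m := by
    rw [Affine.slope_of_Y_ne rfl hneg]
    unfold Affine.negY crv
    simp only [zero_mul, sub_zero, mul_zero, add_zero, sub_neg_eq_add]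
    rw [div_eq_iff (by intro h0; exact hy0 (two_zero (by linear_combination h0)))]
    linear_combination q1
  have hX : (crv A B).toAffine.addX x0 x0 m = x := by
    unfold Affine.addX crv
    simp only [zero_mul, sub_zero, add_zero]
    linear_combination i2
  have hdbl : ∀ hx : (crv A B).toAffine.Nonsingular x (-(m * x + n)),
      (Affine.Point.some x0 (m * x0 + n) hns) + (Affine.Point.some x0 (m * x0 + n) hns) =
      Affine.Point.some x (-(m * x + n)) hx := by
    intro hx
    rw [Affine.Point.add_self_of_Y_ne hneg, Affine.Point.some.injEq, hsl]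
    refine ⟨hX, ?_⟩
    unfold Affine.addY Affine.negAddY
    rw [hX]
    unfold Affine.negY crv
    simp only [zero_mul, sub_zero]
    ring
  have hxn : (crv A B).toAffine.Nonsingular x (-(m * x + n)) := by
    have h1 : -(m * x + n) = y ∨ -(m * x + n) = -y := by
      rw [← sq_eq_sq_iff_eq_or_eq_neg]
      linear_combination q2 - hy
    rcases h1 with h1 | h1
    · rw [h1]; exact h
    · rw [h1]
      rw [crv_nons] at h ⊢
      refine ⟨by rw [neg_sq]; exact h.1, ?_⟩
      rcases h.2 with h2 | h2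
      · exact Or.inl h2
      · exact Or.inr fun h3 => h2 (by linear_combination -h3)
  have h1 : y = -(m * x + n) ∨ y = m * x + n := by
    have := sq_eq_sq_iff_eq_or_eq_neg.1 (hy.trans q2.symm)
    tauto
  rcases h1 with h1 | h1
  · subst h1
    exact ⟨_, hdbl h⟩
  · refine ⟨-(Affine.Point.some x0 (m * x0 + n) hns), ?_⟩
    rw [← neg_add, hdbl hxn, Affine.Point.neg_some, Affine.Point.some.injEq]
    refine ⟨rfl, ?_⟩
    unfold Affine.negY crv
    simp only [zero_mul, sub_zero, neg_neg]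
    exact h1.symm

end Pool.Agent.L0h90.NF
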