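import Pool.Agent.L0h90.NF.Half

/-!
# If `(x(P) - θ) (x(P') - θ)` is a square, then `P - P'` is a double

The main result is `pair : S_PAIR`.
-/

set_option autoImplicit false
set_option linter.unusedSectionVars false

namespace Pool.Agent.L0h90.NF

open Polynomial Pool.Agent.L0h45.NF WeierstrassCurve

variable {F : Type} [Field F] [CharZero F] {A B : F}

/-- the chord -/
lemma chord {x y x' y' l n x3 a b : F} (hy : y ^ 2 = x ^ 3 + a * x + b)
    (hy' : y' ^ 2 = x' ^ 3 + a * x' + b) (h1 : y = l * x + n) (h2 : y' = l * x' + n)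
    (h3 : x3 = l ^ 2 - x - x') (hne : x ≠ x') :
    a - 2 * l * n = x * x' + (x + x') * x3 ∧ b - n ^ 2 = -(x * x' * x3) := by
  subst h1 h2 h3
  have d1 : (a - 2 * l * n - (x * x' + (x + x') * (l ^ 2 - x - x'))) * x +
      (b - n ^ 2 + x * x' * (l ^ 2 - x - x')) = 0 := by
    linear_combination -hy
  have d2 : (a - 2 * l * n - (x * x' + (x + x') * (l ^ 2 - x - x'))) * x' +
      (b - n ^ 2 + x * x' * (l ^ 2 - x - x')) = 0 := by
    linear_combination -hy'
  have d3 : a - 2 * l * n - (x * x' + (x + x') * (l ^ 2 - x - x')) = 0 := by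
    have h4 : (x - x') * (a - 2 * l * n - (x * x' + (x + x') * (l ^ 2 - x - x'))) = 0 := by
      linear_combination d1 - d2
    rcases mul_eq_zero.1 h4 with h5 | h5
    · exact absurd (sub_eq_zero.1 h5) hne
    · exact h5
  refine ⟨by linear_combination d3, ?_⟩
  rw [d3, zero_mul, zero_add] at d1
  linear_combination d1

/-- `x - θ` is invertible if `x` is not a root -/
lemma inv_of {x y : F} (hy : y ^ 2 = x ^ 3 + A * x + B) (h0 : y ≠ 0) :
    ∃ v : Alg A B, (AdjoinRoot.of (cub A B) x - th A B) * v = 1 := by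
  have hrel := th_rel A B
  have hy1 : AdjoinRoot.of (cub A B) y ^ 2 = AdjoinRoot.of (cub A B) x ^ 3 +
      AdjoinRoot.of (cub A B) A * AdjoinRoot.of (cub A B) x + AdjoinRoot.of (cub A B) B := by
    rw [← map_pow, hy]
    simp only [map_add, map_mul, map_pow]
  have hinv : AdjoinRoot.of (cub A B) (y ^ 2) * AdjoinRoot.of (cub A B) ((y ^ 2)⁻¹) = 1 := by
    rw [← map_mul, mul_inv_cancel₀ (pow_ne_zero 2 h0), map_one]
  rw [map_pow] at hinv
  refine ⟨(AdjoinRoot.of (cub A B) x ^ 2 + AdjoinRoot.of (cub A B) x * th A B + th A B ^ 2 +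
    AdjoinRoot.of (cub A B) A) * AdjoinRoot.of (cub A B) ((y ^ 2)⁻¹), ?_⟩
  rw [← hinv]
  linear_combination (-AdjoinRoot.of (cub A B) ((y ^ 2)⁻¹)) * hrel -
    (AdjoinRoot.of (cub A B) ((y ^ 2)⁻¹)) * hy1

/-- **PAIR** -/
theorem pair : S_PAIR := by
  intro F _ _ _ A B hΔ x y x' y' h h' hy0 hy0' hsq
  have hy : y ^ 2 = x ^ 3 + A * x + B := ((crv_nons A B x y).1 h).1
  have hy' : y' ^ 2 = x' ^ 3 + A * x' + B := ((crv_nons A B x' y').1 h').1
  by_cases hx : x = x'
  · subst hx
    have h1 := sq_eq_sq_iff_eq_or_eq_neg.1 (hy.trans hy'.symm)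
    rcases h1 with h1 | h1
    · subst h1
      exact ⟨0, by simp⟩
    · refine ⟨Affine.Point.some x y h, ?_⟩
      have h2 : Affine.Point.some x y' h' = -(Affine.Point.some x y h) := by
        rw [Affine.Point.neg_some, Affine.Point.some.injEq]
        refine ⟨rfl, ?_⟩
        unfold Affine.negY crv
        simp only [zero_mul, sub_zero]
        linear_combination h1
      rw [h2]
      abel
  · obtain ⟨l, hl⟩ : ∃ l, l = (y - y') / (x - x') := ⟨_, rfl⟩
    have hxx : x - x' ≠ 0 := sub_ne_zero.2 hx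
    obtain ⟨n, hn⟩ : ∃ n, n = y - l * x := ⟨_, rfl⟩
    have h1 : y = l * x + n := by rw [hn]; ring
    have h2 : y' = l * x' + n := by
      rw [hn, hl]
      field_simp
      ring
    obtain ⟨x3, h3⟩ : ∃ x3, x3 = l ^ 2 - x - x' := ⟨_, rfl⟩
    obtain ⟨c1, c0⟩ := chord hy hy' h1 h2 h3 hx
    have hsum := Affine.Point.add_of_X_ne (h₁ := h) (h₂ := h') hx
    have hX : (crv A B).toAffine.addX x x' ((crv A B).toAffine.slope x x' y y') = x3 := by
      rw [Affine.slope_of_X_ne hx, ← hl, h3]
      unfold Affine.addX crv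
      simp
    have key : ∀ (X Y : F) (hXY : (crv A B).toAffine.Nonsingular X Y), X = x3 →
        ∃ Q : (crv A B).toAffine.Point, Q + Q = .some X Y hXY := by
      rintro X Y hXY rfl
      apply half F A B hΔ
      have hrel := th_rel A B
      obtain ⟨v, hv⟩ := inv_of hy hy0
      obtain ⟨v', hv'⟩ := inv_of hy' hy0'
      obtain ⟨s, hs⟩ := hsq
      refine ⟨v * v' * s * (AdjoinRoot.of (cub A B) l * th A B + AdjoinRoot.of (cub A B) n), ?_⟩
      have d1 : AdjoinRoot.of (cub A B) A - 2 * AdjoinRoot.of (cub A B) l *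
          AdjoinRoot.of (cub A B) n = AdjoinRoot.of (cub A B) x * AdjoinRoot.of (cub A B) x' +
          (AdjoinRoot.of (cub A B) x + AdjoinRoot.of (cub A B) x') *
            AdjoinRoot.of (cub A B) X := by
        have := congrArg (AdjoinRoot.of (cub A B)) c1
        simpa only [map_add, map_sub, map_mul, map_ofNat] using this
      have d0 : AdjoinRoot.of (cub A B) B - AdjoinRoot.of (cub A B) n ^ 2 =
          -(AdjoinRoot.of (cub A B) x * AdjoinRoot.of (cub A B) x' *
            AdjoinRoot.of (cub A B) X) := by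
        have := congrArg (AdjoinRoot.of (cub A B)) c0
        simpa only [map_add, map_sub, map_mul, map_pow, map_neg] using this
      have d2 : AdjoinRoot.of (cub A B) X = AdjoinRoot.of (cub A B) l ^ 2 -
          AdjoinRoot.of (cub A B) x - AdjoinRoot.of (cub A B) x' := by
        have := congrArg (AdjoinRoot.of (cub A B)) h3
        simpa only [map_add, map_sub, map_mul, map_pow, map_neg] using this
      have d3 : (AdjoinRoot.of (cub A B) x - th A B) * (AdjoinRoot.of (cub A B) x' - th A B) *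
          (AdjoinRoot.of (cub A B) X - th A B) = (AdjoinRoot.of (cub A B) l * th A B +
            AdjoinRoot.of (cub A B) n) ^ 2 := by
        linear_combination -hrel + th A B * d1 + d0 + th A B ^ 2 * d2
      calc AdjoinRoot.of (cub A B) X - th A B =
          ((AdjoinRoot.of (cub A B) x - th A B) * v) * ((AdjoinRoot.of (cub A B) x - th A B) * v) *
          (((AdjoinRoot.of (cub A B) x' - th A B) * v') *
            ((AdjoinRoot.of (cub A B) x' - th A B) * v')) *
            (AdjoinRoot.of (cub A B) X - th A B) := by rw [hv, hv']; ring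
        _ = v ^ 2 * v' ^ 2 * ((AdjoinRoot.of (cub A B) x - th A B) *
            (AdjoinRoot.of (cub A B) x' - th A B)) * ((AdjoinRoot.of (cub A B) x - th A B) *
            (AdjoinRoot.of (cub A B) x' - th A B) * (AdjoinRoot.of (cub A B) X - th A B)) := by
            ring
        _ = _ := by
            rw [d3, hs]
            ring
    obtain ⟨Q0, hQ0⟩ := key _ _ _ hX
    refine ⟨Q0 - .some x' y' h', ?_⟩
    rw [← hsum] at hQ0
    have e1 : Q0 - .some x' y' h' + (Q0 - .some x' y' h') + .some x' y' h' =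
        (Q0 + Q0) - .some x' y' h' := by abel
    rw [e1, hQ0]
    abel

end Pool.Agent.L0h90.NF
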